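import Pool.Agent.MP_0d3a63_an.CplxFinal

set_option autoImplicit false

namespace Pool.Agent.Results.MP_0d3a63_an.NoExample

open Pool.Agent.MP_0d3a63_an

universe u

/-- No infinite-dimensional real or complex Banach space with the super alternative Daugavet
property is strongly regular. -/
theorem result :
    (∀ (X : Type u) [NormedAddCommGroup X] [NormedSpace ℝ X] [CompleteSpace X],
      ¬ FiniteDimensional ℝ X → SuperADP ℝ X → ¬ StronglyRegular ℝ X) ∧
    (∀ (X : Type u) [NormedAddCommGroup X] [NormedSpace ℂ X] [CompleteSpace X],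
      ¬ FiniteDimensional ℂ X → SuperADP ℂ X → ¬ StronglyRegular ℂ X) :=
  ⟨fun _ _ _ _ hdim hs hr => contra hr (real_unbounded hdim hs hr),
    fun _ _ _ _ hdim hs hr => contra hr fun u U hU _ hz c hc =>
      complex_unbounded hdim hs hr u U hU hz c hc⟩

end Pool.Agent.Results.MP_0d3a63_an.NoExample
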